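import Pool.Agent.Lead.GW2

namespace Pool.Agent.Results.MP_34b196_pr.Continuum

open Pool.Agent.Lead.GW MeasureTheory

theorem result : ∀ (X : Type) [Countable X] (μ : X → PMF (X →₀ ℕ))
    (P : X → Measure (ℕ → X →₀ ℕ)), (∀ x, IsLaw μ x (P x)) → ∀ q r : X → ℝ,
    (∀ x, q x = (P x).real {ω | ∀ᶠ n in Filter.atTop, ω n = 0}) →
    (∀ x, r x = (P x).real {ω | ∀ y, ∀ᶠ n in Filter.atTop, ω n y = 0}) → q ≠ r →
    Cardinal.mk {s : X → ℝ | s ∈ Set.Icc (0 : X → ℝ) 1 ∧ gen μ s = s ∧ q ≤ s ∧ s ≤ r} =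
      Cardinal.continuum :=
  fun _ _ _ _ hP _ _ hq hr hne => main hP hq hr hne

end Pool.Agent.Results.MP_34b196_pr.Continuum
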